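import Pool.Agent.Lib.MP_d8ef8f_an.Rf.Main

/-!
# Three species with rates within a factor four; near, factor four and far rates
-/

set_option autoImplicit false

namespace Pool.Agent.Results.MP_d8ef8f_an.FactorFour

open Set Filter Topology MeasureTheory Pool.Agent.Lib.MP_d8ef8f_an.Gd

/-- The rates `d (k+1), ..., d l` are near to `d k`: either `l = k + 2` and `d_l ≤ 4 d_k`, or
`32 (l - k) d_j² (d_j - d_i)² ≤ d_k³ (d_i - d_k)` for `k < i ≤ j ≤ l` (always true if `l ≤ k + 1`),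
or `d_j ≤ (1 + 1 / (64000 (1 + log (l - k))²)) d_k` for `k < j ≤ l`. -/
def Near {N : ℕ} (d : Fin N → ℝ) (k l : Fin N) : Prop :=
  ((l : ℕ) = (k : ℕ) + 2 ∧ d l ≤ 4 * d k) ∨
  (∀ i j, k < i → i ≤ j → j ≤ l →
    32 * (((l : ℕ) : ℝ) - ((k : ℕ) : ℝ)) * d j ^ 2 * (d j - d i) ^ 2 ≤ d k ^ 3 * (d i - d k)) ∨
  (∀ j, k < j → j ≤ l →
    d j ≤ (1 + 1 / (64000 * (1 + Real.log (((l : ℕ) : ℝ) - ((k : ℕ) : ℝ))) ^ 2)) * d k)

/-- The rates above `d k` split into near rates `d (k+1), ..., d l` and far rates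
`d_j ≥ max ((1 + c) d_k, 20000 N P m₀ / c²)`, `j > l`. -/
def Split {N : ℕ} (P m₀ c : ℝ) (d : Fin N → ℝ) (k : Fin N) : Prop :=
  ∃ l : Fin N, k ≤ l ∧ Near d k l ∧
    ∀ j, l < j → (1 + c) * d k ≤ d j ∧ 20000 * N * P * m₀ ≤ c ^ 2 * d j

/-- The environments: `Ω` is one-dimensional (an interval) and `m ≥ 0`, or `m` varies by at most
one per cent. -/
def Env {n : ℕ} (Ω : Set (Sp n)) (m : Sp n → ℝ) : Prop :=
  (n = 1 ∧ ∀ x ∈ closure Ω, 0 ≤ m x) ∨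
    ∃ m₁ : ℝ, 0 < m₁ ∧ ∀ x ∈ closure Ω, m₁ ≤ m x ∧ m x ≤ 101 / 100 * m₁

/-- **Main theorem.** -/
theorem result :
    (∀ a b : ℝ, a < b → Domain ({x | a < x 0 ∧ x 0 < b} : Set (Sp 1))) ∧
    ∀ {n : ℕ} (Ω : Set (Sp n)), Domain Ω → ∀ (m : Sp n → ℝ), ContinuousOn m (closure Ω) →
      (∃ x ∈ closure Ω, ∃ y ∈ closure Ω, m x ≠ m y) → Env Ω m →
      (∀ d : Fin 3 → ℝ, 0 < d 0 → d 0 < d 1 → d 1 < d 2 → d 2 ≤ 4 * d 0 →
        ∀ θ : Fin 3 → Sp n → ℝ, (∀ j, IsSteady Ω (d j) m (θ j)) → IsMorse Ω d m (Eqm θ)) ∧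
      (∃ P : ℝ, 0 < P ∧ Poinc Ω P) ∧
      ∀ P m₀ : ℝ, 0 < P → Poinc Ω P → (∀ x ∈ closure Ω, |m x| ≤ m₀) → ∀ c : ℝ, 0 < c → c ≤ 1 →
        ∀ (N : ℕ) (d : Fin N → ℝ), (∀ j, 0 < d j) → StrictMono d →
        ∀ (θ : Fin N → Sp n → ℝ), (∀ j, IsSteady Ω (d j) m (θ j)) →
        (∀ k, Split P m₀ c d k → ∀ u, Forward Ω d m u →
          (∀ j, j < k → ∀ x ∈ closure Ω, u j 0 x = 0) →
          (∃ x ∈ closure Ω, u k 0 x ≠ 0) → LimIn Ω atTop u (Eqm θ k.castSucc)) ∧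
        ((∀ k, Split P m₀ c d k) → IsMorse Ω d m (Eqm θ)) := by
  refine ⟨fun a b hab => Pool.Agent.Lib.MP_d8ef8f_an.Rf.domain_interval hab, ?_⟩
  intro n Ω hΩ m hm hnc hE
  have hG : Pool.Agent.Lib.MP_d8ef8f_an.Rf.Good Ω m := by
    rcases hE with ⟨hn, h0⟩ | ⟨m₁, h1, h2⟩
    · subst hn
      exact Pool.Agent.Lib.MP_d8ef8f_an.Rf.good_interval hΩ hm hnc h0
    · exact Pool.Agent.Lib.MP_d8ef8f_an.Rf.good_weak hΩ hm hnc h1 h2
  have main : ∀ P m₀ : ℝ, 0 < P → Poinc Ω P → (∀ x ∈ closure Ω, |m x| ≤ m₀) →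
      ∀ c : ℝ, 0 < c → c ≤ 1 → ∀ (N : ℕ) (d : Fin N → ℝ), (∀ j, 0 < d j) → StrictMono d →
        ∀ (θ : Fin N → Sp n → ℝ), (∀ j, IsSteady Ω (d j) m (θ j)) →
        (∀ k, Split P m₀ c d k → ∀ u, Forward Ω d m u →
          (∀ j, j < k → ∀ x ∈ closure Ω, u j 0 x = 0) →
          (∃ x ∈ closure Ω, u k 0 x ≠ 0) → LimIn Ω atTop u (Eqm θ k.castSucc)) ∧
        ((∀ k, Split P m₀ c d k) → IsMorse Ω d m (Eqm θ)) := by
    intro P m₀ hP0 hP hmm c hc hc1 N d hd hmono θ hθ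
    have hD : Pool.Agent.Lib.MP_d8ef8f_an.Ff.Dom Ω P :=
      ⟨hΩ.isOpen, hΩ.nonempty, hΩ.bdd, hP, hP0⟩
    have hA : ∀ k, Split P m₀ c d k → Attr Ω d m k (θ k) := by
      rintro k ⟨l, hkl, h1 | h1 | h1, h2⟩
      · exact Pool.Agent.Lib.MP_d8ef8f_an.Uf.attr_of_near N hD hm hnc hmm hc hc1 d hd hmono k l hkl
          h2 (θ k) (Pool.Agent.Lib.MP_d8ef8f_an.Rf.near_four hΩ.bdd hG hd hmono k l h1.1 h1.2
            (hθ k))
      · exact Pool.Agent.Lib.MP_d8ef8f_an.Uf.attr_of_near N hD hm hnc hmm hc hc1 d hd hmono k l hkl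
          h2 (θ k) (Pool.Agent.Lib.MP_d8ef8f_an.Ff.near_df hD hm hnc hd hmono k l hkl h1 (hθ k))
      · refine Pool.Agent.Lib.MP_d8ef8f_an.Uf.attr_of_near N hD hm hnc hmm hc hc1 d hd hmono k l hkl
          h2 (θ k) (Pool.Agent.Lib.MP_d8ef8f_an.Ff.near_t0 hΩ hm hnc hd hmono k l hkl ?_ (hθ k))
        intro j hj hjl
        have h3 := h1 j hj hjl
        unfold Pool.Agent.Lib.MP_d8ef8f_an.Ff.cn
        rw [Nat.cast_sub (Fin.le_def.1 hkl)]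
        exact h3
    refine ⟨fun k hk u hu hlow hne => ?_, fun h => ?_⟩
    · exact conv_of_attr p_A2 (p_D0 p_A2 p_A3) (p_F1 p_A2) Ω hΩ.isOpen hΩ.bdd d m hm θ hθ k
        (hA k hk) u hu hlow hne
    · exact morse_of_attr p_A2 (p_D0 p_A2 p_A3) (p_F1 p_A2) p_F3 Ω hΩ.isOpen hΩ.nonempty hΩ.bdd
        d m hm θ hθ fun k => hA k (h k)
  refine ⟨?_, p_P Ω hΩ, main⟩
  intro d h0 h01 h12 h4 θ hθ
  obtain ⟨P, hP0, hP⟩ := p_P Ω hΩ
  obtain ⟨m₀, hm₀⟩ := hΩ.bdd.isCompact_closure.exists_bound_of_continuousOn hm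
  have hd : ∀ j, 0 < d j := by
    intro j
    fin_cases j
    · exact h0
    · exact h0.trans h01
    · exact (h0.trans h01).trans h12
  have hmono : StrictMono d := by
    rw [Fin.strictMono_iff_lt_succ]
    intro i
    fin_cases i
    · exact h01
    · exact h12
  refine (main P m₀ hP0 hP (fun x hx => (Real.norm_eq_abs (m x)) ▸ hm₀ x hx) 1 one_pos le_rfl 3 d hd hmono θ
    hθ).2 fun k => ?_
  have hfar : ∀ j : Fin 3, (2 : Fin 3) < j → (1 + 1) * d k ≤ d j ∧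
      20000 * ((3 : ℕ) : ℝ) * P * m₀ ≤ 1 ^ 2 * d j := by
    intro j hj
    exfalso
    have e1 := Fin.lt_def.1 hj
    have e2 := j.isLt
    simp at e1
    omega
  refine ⟨2, ?_, ?_, hfar⟩
  · rw [Fin.le_def]
    have := k.isLt
    simp
    omega
  · rcases Nat.eq_zero_or_pos (k : ℕ) with hk | hk
    · left
      have hk0 : k = 0 := Fin.ext hk
      subst hk0
      exact ⟨by simp, h4⟩
    · right
      left
      intro i j hi hij _
      have e1 := Fin.lt_def.1 hi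
      have e2 := Fin.le_def.1 hij
      have e3 := i.isLt
      have e4 := j.isLt
      have h3 : i = j := Fin.ext (by omega)
      subst h3
      have h5 : d k < d i := hmono hi
      have h6 := hd k
      rw [sub_self]
      have h7 : 0 ≤ d k ^ 3 * (d i - d k) := by
        have : 0 ≤ d i - d k := by linarith
        positivity
      simpa using h7

end Pool.Agent.Results.MP_d8ef8f_an.FactorFour
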