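import Pool.Agent.Lib.MP_d8ef8f_an.Sf.Main

/-!
# Morse decomposition when slow species are much slower than the other ones
-/

set_option autoImplicit false

namespace Pool.Agent.Results.MP_d8ef8f_an.SlowRates

open Set Filter Topology MeasureTheory Pool.Agent.Lib.MP_d8ef8f_an.Gd

/-- the constant -/
noncomputable def CN (N : ℕ) : ℝ := 20000 * N * (64000 * (1 + Real.log N) ^ 2) ^ 2

/-- The rate `d j` is large: at least `C_N P m₀`, or at least `max (2 d_i, 20000 N P m₀)`. -/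
def Big {N : ℕ} (P m₀ : ℝ) (d : Fin N → ℝ) (i j : Fin N) : Prop :=
  CN N * P * m₀ ≤ d j ∨ (2 * d i ≤ d j ∧ 20000 * N * P * m₀ ≤ d j)

private def Near {N : ℕ} (d : Fin N → ℝ) (k l : Fin N) : Prop :=
  (∀ i j, k < i → i ≤ j → j ≤ l →
    32 * (((l : ℕ) : ℝ) - ((k : ℕ) : ℝ)) * d j ^ 2 * (d j - d i) ^ 2 ≤ d k ^ 3 * (d i - d k)) ∨
  (∀ j, k < j → j ≤ l →
    d j ≤ (1 + 1 / (64000 * (1 + Real.log (((l : ℕ) : ℝ) - ((k : ℕ) : ℝ))) ^ 2)) * d k)

private def Far {N : ℕ} (P m₀ c : ℝ) (d : Fin N → ℝ) (k j : Fin N) : Prop :=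
  (1 + c) * d k ≤ d j ∧ 20000 * N * P * m₀ ≤ c ^ 2 * d j

private theorem near_attr {n N : ℕ} {Ω : Set (Sp n)} (hΩ : Domain Ω)
    {P : ℝ} (hD : Pool.Agent.Lib.MP_d8ef8f_an.Ff.Dom Ω P) {m : Sp n → ℝ}
    (hm : ContinuousOn m (closure Ω)) (hnc : ∃ x ∈ closure Ω, ∃ y ∈ closure Ω, m x ≠ m y)
    {d : Fin N → ℝ} (hd : ∀ j, 0 < d j) (hmono : StrictMono d) {k l : Fin N} (hkl : k ≤ l)
    (h : Near d k l) {θ : Sp n → ℝ} (hθ : IsSteady Ω (d k) m θ) :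
    Pool.Agent.Lib.MP_d8ef8f_an.Ff.AttrSU Ω d m k θ (Finset.univ.filter (fun j => j < k) ∪
        Finset.univ.filter (fun j => l < j)) := by
  rcases h with h1 | h1
  · exact Pool.Agent.Lib.MP_d8ef8f_an.Ff.near_df hD hm hnc hd hmono k l hkl h1 hθ
  · refine Pool.Agent.Lib.MP_d8ef8f_an.Ff.near_t0 hΩ hm hnc hd hmono k l hkl ?_ hθ
    intro j hj hjl
    have h3 := h1 j hj hjl
    unfold Pool.Agent.Lib.MP_d8ef8f_an.Ff.cn
    rw [Nat.cast_sub (Fin.le_def.1 hkl)]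
    exact h3

private theorem far_dies {n N : ℕ} {Ω : Set (Sp n)} {P : ℝ}
    (hD : Pool.Agent.Lib.MP_d8ef8f_an.Ff.Dom Ω P) {m : Sp n → ℝ}
    (hm : ContinuousOn m (closure Ω)) (hnc : ∃ x ∈ closure Ω, ∃ y ∈ closure Ω, m x ≠ m y)
    {m₀ : ℝ} (hmm : ∀ x ∈ closure Ω, |m x| ≤ m₀) {c : ℝ} (hc : 0 < c) (hc1 : c ≤ 1)
    {d : Fin N → ℝ} (hd : ∀ j, 0 < d j) (hmono : StrictMono d) {k j : Fin N} (hkj : k < j)
    (h : Far P m₀ c d k j) :
    Pool.Agent.Lib.MP_d8ef8f_an.Ff.Dies Ω d m k j (Finset.univ.filter (fun j => j < k)) := by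
  have hm₀ : 0 < m₀ := by
    obtain ⟨x, hx, y, hy, hxy⟩ := hnc
    have h1 := abs_le.1 (hmm x hx)
    have h2 := abs_le.1 (hmm y hy)
    rcases lt_or_ge 0 m₀ with h | h
    · exact h
    · exact absurd (by linarith [h1.1, h1.2, h2.1, h2.2] : m x = m y) hxy
  intro M A q hA hq
  refine Pool.Agent.Lib.MP_d8ef8f_an.Uf.u10_all N Ω P hD m hm hnc m₀ hm₀ hmm c hc hc1 d hd k j
    (Finset.univ.filter (fun j => j < k)) hkj.ne (by simp) (by simp [hkj.le]) ?_ h.1 h.2 M A q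
    hA hq
  intro i hi
  have : ¬ i < k := fun h => hi (by simp [h])
  exact hmono.monotone (not_lt.1 this)

private theorem near_succ {N : ℕ} {d : Fin N → ℝ} (hd : ∀ j, 0 < d j) (hmono : StrictMono d)
    {k l : Fin N} (hl : (l : ℕ) ≤ (k : ℕ) + 1) : Near d k l := by
  refine Or.inl ?_
  intro i j hi hij hjl
  have h3 : (i : ℕ) = (j : ℕ) := by
    have e1 := Fin.lt_def.1 hi
    have e2 := Fin.le_def.1 hij
    have e3 := Fin.le_def.1 hjl
    omega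
  have h4 : i = j := Fin.ext h3
  subst h4
  have h5 : d k < d i := hmono hi
  have h6 := hd k
  rw [sub_self]
  have h7 : 0 ≤ d k ^ 3 * (d i - d k) := by
    have : 0 ≤ d i - d k := by linarith
    positivity
  simpa using h7

private theorem mass_pos {n : ℕ} {Ω : Set (Sp n)} (hΩ : Domain Ω) {w : Sp n → ℝ}
    (hw : ContinuousOn w (closure Ω)) (h0 : ∀ x ∈ closure Ω, 0 ≤ w x)
    (hne : ∃ x ∈ closure Ω, w x ≠ 0) : 0 < Pool.Agent.Lib.MP_d8ef8f_an.Ff.mass Ω w := by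
  have hO := hΩ.isOpen
  have hb := hΩ.bdd
  have h1 : 0 ≤ Pool.Agent.Lib.MP_d8ef8f_an.Ff.mass Ω w :=
    setIntegral_nonneg hO.measurableSet fun x hx => h0 x (subset_closure hx)
  rcases h1.lt_or_eq with h | h
  · exact h
  exfalso
  have hi : IntegrableOn w Ω := p_A2 Ω hb _ hw
  have hae : w =ᵐ[volume.restrict Ω] (fun _ => (0 : ℝ)) := by
    refine (setIntegral_eq_zero_iff_of_nonneg_ae ?_ hi).1 h.symm
    filter_upwards [ae_restrict_mem hO.measurableSet] with x hx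
    exact h0 x (subset_closure hx)
  have h2 : EqOn w (fun _ => (0 : ℝ)) Ω :=
    Measure.eqOn_open_of_ae_eq hae hO (hw.mono subset_closure) continuousOn_const
  have h3 : EqOn w (fun _ => (0 : ℝ)) (closure Ω) :=
    h2.of_subset_closure hw continuousOn_const subset_closure subset_rfl
  obtain ⟨x, hx, hxn⟩ := hne
  exact hxn (h3 hx)

/-- near and far species when `d (k+2)` is large -/
private theorem big_split {N : ℕ} {P m₀ : ℝ} {d : Fin N → ℝ} (hd : ∀ j, 0 < d j)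
    (hmono : StrictMono d) (k j₂ : Fin N) (hj₂ : (k : ℕ) + 2 = j₂) (h : Big P m₀ d k j₂) :
    ∃ c : ℝ, 0 < c ∧ c ≤ 1 ∧ ∃ l : Fin N, k ≤ l ∧ Near d k l ∧ ∀ j, l < j → Far P m₀ c d k j := by
  have hk1 : (k : ℕ) + 1 < N := by
    have := j₂.isLt
    omega
  have hkk : k ≤ (⟨(k : ℕ) + 1, hk1⟩ : Fin N) := by
    rw [Fin.le_def]
    simp
  have hle : ∀ j : Fin N, (⟨(k : ℕ) + 1, hk1⟩ : Fin N) < j → d j₂ ≤ d j := by
    intro j hj
    have h1 : (k : ℕ) + 1 < (j : ℕ) := Fin.lt_def.1 hj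
    apply hmono.monotone
    rw [Fin.le_def]
    omega
  rcases h with h | ⟨h1, h2⟩
  · have hcN := Pool.Agent.Lib.MP_d8ef8f_an.Ff.cn_pos N
    have hcN1 : Pool.Agent.Lib.MP_d8ef8f_an.Ff.cn N ≤ 1 := by
      unfold Pool.Agent.Lib.MP_d8ef8f_an.Ff.cn
      have h : 0 ≤ Real.log (N : ℝ) := Real.log_natCast_nonneg N
      rw [div_le_one (by positivity)]
      nlinarith
    refine ⟨Pool.Agent.Lib.MP_d8ef8f_an.Ff.cn N, hcN, hcN1, ?_⟩
    have hCN : ∀ j : Fin N, d j₂ ≤ d j → 20000 * N * P * m₀ ≤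
        Pool.Agent.Lib.MP_d8ef8f_an.Ff.cn N ^ 2 * d j := by
      intro j hj
      have h1 := mul_le_mul_of_nonneg_left (h.trans hj) (by positivity :
        0 ≤ Pool.Agent.Lib.MP_d8ef8f_an.Ff.cn N ^ 2)
      refine le_trans (le_of_eq ?_) h1
      unfold CN Pool.Agent.Lib.MP_d8ef8f_an.Ff.cn
      have h : 0 ≤ Real.log (N : ℝ) := Real.log_natCast_nonneg N
      field_simp
    obtain ⟨l, hkl, h1, h2⟩ := Pool.Agent.Lib.MP_d8ef8f_an.Ff.exists_split hd hmono hcN k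
    by_cases hl : (k : ℕ) + 1 ≤ (l : ℕ)
    · refine ⟨l, hkl, Or.inr ?_, ?_⟩
      · intro j _ hjl
        refine (h1 j hjl).trans ?_
        refine mul_le_mul_of_nonneg_right ?_ (hd k).le
        have h3 : (l : ℕ) - (k : ℕ) ≤ N := by
          have := l.isLt
          omega
        have h4 := Pool.Agent.Lib.MP_d8ef8f_an.Ff.cn_anti h3
        unfold Pool.Agent.Lib.MP_d8ef8f_an.Ff.cn at h4 ⊢
        rw [Nat.cast_sub (Fin.le_def.1 hkl)] at h4
        linarith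
      · intro j hj
        refine ⟨(h2 j hj).le, hCN j (hmono.monotone ?_)⟩
        have := Fin.lt_def.1 hj
        rw [Fin.le_def]
        omega
    · refine ⟨⟨(k : ℕ) + 1, hk1⟩, hkk, near_succ hd hmono le_rfl, ?_⟩
      intro j hj
      have h3 := Fin.lt_def.1 hj
      refine ⟨(h2 j ?_).le, hCN j (hle j hj)⟩
      rw [Fin.lt_def]
      simp only at h3
      omega
  · refine ⟨1, one_pos, le_rfl, ⟨(k : ℕ) + 1, hk1⟩, hkk, near_succ hd hmono le_rfl, ?_⟩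
    intro j hj
    have h3 := hle j hj
    constructor
    · linarith
    · linarith

/-- the two fastest species -/
private theorem top_attr {n N : ℕ} {Ω : Set (Sp n)} (hΩ : Domain Ω)
    {P : ℝ} (hD : Pool.Agent.Lib.MP_d8ef8f_an.Ff.Dom Ω P) {m : Sp n → ℝ}
    (hm : ContinuousOn m (closure Ω)) (hnc : ∃ x ∈ closure Ω, ∃ y ∈ closure Ω, m x ≠ m y)
    {d : Fin N → ℝ} (hd : ∀ j, 0 < d j) (hmono : StrictMono d) {k : Fin N}
    (hk : ¬ (k : ℕ) + 2 < N) {θ : Sp n → ℝ} (hθ : IsSteady Ω (d k) m θ) : Attr Ω d m k θ := by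
  by_cases hk1 : (k : ℕ) + 1 < N
  · have hkk : k ≤ (⟨(k : ℕ) + 1, hk1⟩ : Fin N) := by
      rw [Fin.le_def]
      simp
    refine Pool.Agent.Lib.MP_d8ef8f_an.Sf.attr_of_dies hD hm k _ hkk ?_
      (near_attr hΩ hD hm hnc hd hmono hkk (near_succ hd hmono le_rfl) hθ)
    intro j hj
    exfalso
    have h1 : (k : ℕ) + 1 < (j : ℕ) := Fin.lt_def.1 hj
    have h2 := j.isLt
    omega
  · refine Pool.Agent.Lib.MP_d8ef8f_an.Sf.attr_of_dies hD hm k k le_rfl ?_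
      (near_attr hΩ hD hm hnc hd hmono le_rfl (near_succ hd hmono (Nat.le_succ _)) hθ)
    intro j hj
    exfalso
    have h1 := Fin.lt_def.1 hj
    have h2 := j.isLt
    omega

/-- **Main theorem.** -/
theorem result {n : ℕ} (N : ℕ) (Ω : Set (Sp n)) (hΩ : Domain Ω) (m : Sp n → ℝ)
    (hm : ContinuousOn m (closure Ω)) :
    (∃ P : ℝ, 0 < P ∧ Poinc Ω P) ∧
    -- (A) `m` changes sign
    ((∃ x ∈ closure Ω, 0 < m x) → (∃ x ∈ closure Ω, m x < 0) →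
      ∃ δ : ℝ → ℝ, (∀ x, 0 < x → 0 < δ x) ∧ (∀ x y, 0 < x → x ≤ y → δ x ≤ δ y) ∧
      ∀ d : Fin N → ℝ, (∀ j, 0 < d j) →
        -- extinction of species `l` in presence of species `k`
        (∀ k l : Fin N, d k ≤ δ (d l) → ∀ u, Forward Ω d m u →
          (∃ t, 0 ≤ t ∧ ∃ x ∈ closure Ω, u k t x ≠ 0) →
          Tendsto (fun t => ∫ x in Ω, u l t x ^ 2) atTop (𝓝 0)) ∧
        (StrictMono d → ∀ θ : Fin N → Sp n → ℝ, (∀ j, IsSteady Ω (d j) m (θ j)) →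
          ∀ P m₀ : ℝ, 0 < P → Poinc Ω P → (∀ x ∈ closure Ω, |m x| ≤ m₀) →
          (∀ i j : Fin N, (i : ℕ) + 2 = j → Big P m₀ d i j ∨ d i ≤ δ (d j)) →
          IsMorse Ω d m (Eqm θ))) ∧
    -- (B) `m = ψ²`
    (∀ (ψ : Sp n → ℝ) (Dψ : Sp n → Sp n), C1 Ω ψ Dψ →
      (∀ x ∈ closure Ω, 0 ≤ ψ x ∧ m x = ψ x ^ 2) →
      (∃ x ∈ closure Ω, ∃ y ∈ closure Ω, m x ≠ m y) →
      ∃ δ : ℝ → ℝ, (∀ x, 0 < x → 0 < δ x) ∧ (∀ x y, 0 < x → x ≤ y → δ x ≤ δ y) ∧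
      ∀ d : Fin N → ℝ, (∀ j, 0 < d j) → StrictMono d →
        ∀ θ : Fin N → Sp n → ℝ, (∀ j, IsSteady Ω (d j) m (θ j)) →
          ∀ P m₀ : ℝ, 0 < P → Poinc Ω P → (∀ x ∈ closure Ω, |m x| ≤ m₀) →
          (∀ i i' j : Fin N, (i : ℕ) + 1 = i' → (i : ℕ) + 2 = j →
            Big P m₀ d i j ∨ d i ≤ δ (d i')) →
          IsMorse Ω d m (Eqm θ)) := by
  classical
  have hO := hΩ.isOpen
  have hb := hΩ.bdd
  have hDom : ∀ P : ℝ, 0 < P → Poinc Ω P → Pool.Agent.Lib.MP_d8ef8f_an.Ff.Dom Ω P :=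
    fun P hP0 hP => ⟨hΩ.isOpen, hΩ.nonempty, hΩ.bdd, hP, hP0⟩
  refine ⟨p_P Ω hΩ, ?_, ?_⟩
  · intro hpos hneg
    have hnc : ∃ x ∈ closure Ω, ∃ y ∈ closure Ω, m x ≠ m y := by
      obtain ⟨x, hx, hx0⟩ := hpos
      obtain ⟨y, hy, hy0⟩ := hneg
      exact ⟨x, hx, y, hy, by linarith⟩
    obtain ⟨δ, hδ0, hδm, H⟩ := Pool.Agent.Lib.MP_d8ef8f_an.Sf.slow_sign N hΩ hm hpos hneg
    refine ⟨δ, hδ0, hδm, ?_⟩
    intro d hd
    refine ⟨?_, ?_⟩
    · intro k l hkl u hu hne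
      obtain ⟨⟨ut, Du, lu, hs⟩, hcu, M, hM⟩ := hu
      -- a positive time at which species `k` is present
      obtain ⟨a, ha, hka⟩ : ∃ a, 0 < a ∧ ∃ x ∈ closure Ω, u k a x ≠ 0 := by
        obtain ⟨t, ht, x, hx, hxn⟩ := hne
        rcases ht.lt_or_eq with h | h
        · exact ⟨t, h, x, hx, hxn⟩
        · subst h
          have hw : ContinuousWithinAt (fun t : ℝ => u k t x) (Ici 0) 0 := by
            have := (hcu k (0, x) ⟨self_mem_Ici, hx⟩)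
            exact this.comp (f := fun t : ℝ => (t, x)) (s := Ici 0)
              (Continuous.prodMk continuous_id continuous_const).continuousWithinAt
              (fun t ht => ⟨ht, hx⟩)
          have hev : ∀ᶠ t in 𝓝[>] (0:ℝ), u k t x ≠ 0 :=
            (hw.mono_left (nhdsWithin_mono _ Ioi_subset_Ici_self)).eventually_ne hxn
          obtain ⟨t, ht1, ht2⟩ := (hev.and self_mem_nhdsWithin).exists
          exact ⟨t, ht2, x, hx, ht1⟩
      refine Pool.Agent.Lib.MP_d8ef8f_an.Sf.tendsto_of_dies hO hb (H d hd k l ∅ hkl)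
        ⟨⟨ut, Du, lu, hs⟩, hcu, M, hM⟩ ha ?_
      exact mass_pos hΩ (hs.lap k a ha).c1.cont (hs.nonneg k a ha) hka
    · intro hmono θ hθ P m₀ hP0 hP hmm h
      refine morse_of_attr p_A2 (p_D0 p_A2 p_A3) (p_F1 p_A2) p_F3 Ω hΩ.isOpen hΩ.nonempty hΩ.bdd
        d m hm θ hθ fun k => ?_
      by_cases hk : (k : ℕ) + 2 < N
      · rcases h k ⟨(k : ℕ) + 2, hk⟩ rfl with h1 | h1
        · obtain ⟨c, hc, hc1, l, hkl, h2, h3⟩ := big_split hd hmono k _ rfl h1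
          refine Pool.Agent.Lib.MP_d8ef8f_an.Sf.attr_of_dies (hDom P hP0 hP) hm k l hkl ?_
            (near_attr hΩ (hDom P hP0 hP) hm hnc hd hmono hkl h2 (hθ k))
          intro j hj
          exact far_dies (hDom P hP0 hP) hm hnc hmm hc hc1 hd hmono (hkl.trans_lt hj) (h3 j hj)
        · have hk1 : (k : ℕ) + 1 < N := by omega
          have hkk : k ≤ (⟨(k : ℕ) + 1, hk1⟩ : Fin N) := by
            rw [Fin.le_def]
            simp
          refine Pool.Agent.Lib.MP_d8ef8f_an.Sf.attr_of_dies (hDom P hP0 hP) hm k _ hkk ?_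
            (near_attr hΩ (hDom P hP0 hP) hm hnc hd hmono hkk (near_succ hd hmono le_rfl) (hθ k))
          intro j hj
          refine H d hd k j _ (h1.trans (hδm _ _ (hd _) (hmono.monotone ?_)))
          rw [Fin.le_def]
          exact Fin.lt_def.1 hj
      · exact top_attr hΩ (hDom P hP0 hP) hm hnc hd hmono hk (hθ k)
  · intro ψ Dψ hψ hmψ hnc
    obtain ⟨δ, hδ0, hδm, H⟩ := Pool.Agent.Lib.MP_d8ef8f_an.Sf.slow_sq N hΩ hψ hmψ hnc
    refine ⟨δ, hδ0, hδm, ?_⟩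
    intro d hd hmono θ hθ P m₀ hP0 hP hmm h
    refine morse_of_attr p_A2 (p_D0 p_A2 p_A3) (p_F1 p_A2) p_F3 Ω hΩ.isOpen hΩ.nonempty hΩ.bdd
      d m hm θ hθ fun k => ?_
    by_cases hk : (k : ℕ) + 2 < N
    · have hk1 : (k : ℕ) + 1 < N := by omega
      rcases h k ⟨(k : ℕ) + 1, hk1⟩ ⟨(k : ℕ) + 2, hk⟩ rfl rfl with h1 | h1
      · obtain ⟨c, hc, hc1, l, hkl, h2, h3⟩ := big_split hd hmono k _ rfl h1
        refine Pool.Agent.Lib.MP_d8ef8f_an.Sf.attr_of_dies (hDom P hP0 hP) hm k l hkl ?_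
          (near_attr hΩ (hDom P hP0 hP) hm hnc hd hmono hkl h2 (hθ k))
        intro j hj
        exact far_dies (hDom P hP0 hP) hm hnc hmm hc hc1 hd hmono (hkl.trans_lt hj) (h3 j hj)
      · refine Pool.Agent.Lib.MP_d8ef8f_an.Sf.attr_of_dies (hDom P hP0 hP) hm k k le_rfl ?_
          (near_attr hΩ (hDom P hP0 hP) hm hnc hd hmono le_rfl
            (near_succ hd hmono (Nat.le_succ _)) (hθ k))
        intro j hj
        refine H d hd k j _ (d ⟨(k : ℕ) + 1, hk1⟩) (hd _) hj.ne (by simp) (by simp [hj.le])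
          h1 ?_
        intro i hi hik
        have h3 : ¬ i < k := fun h => hi (by simp [h])
        have h4 : k < i := lt_of_le_of_ne (not_lt.1 h3) (Ne.symm hik)
        apply hmono.monotone
        rw [Fin.le_def]
        exact Fin.lt_def.1 h4
    · exact top_attr hΩ (hDom P hP0 hP) hm hnc hd hmono hk (hθ k)

end Pool.Agent.Results.MP_d8ef8f_an.SlowRates
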