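import Pool.Agent.Lib.MP_d8ef8f_an.Uf.Main

/-!
# Morse decomposition when the third rate is large, and for near/far rates, explicit thresholds
-/

set_option autoImplicit false

namespace Pool.Agent.Results.MP_d8ef8f_an.ThirdRate

open Set Filter Topology MeasureTheory Pool.Agent.Lib.MP_d8ef8f_an.Gd

/-- The rates `d (k+1), ..., d l` are near to `d k`: either
`32 (l - k) d_j² (d_j - d_i)² ≤ d_k³ (d_i - d_k)` for `k < i ≤ j ≤ l` (always true if `l ≤ k + 1`),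
or `d_j ≤ (1 + 1 / (64000 (1 + log (l - k))²)) d_k` for `k < j ≤ l`. -/
def Near {N : ℕ} (d : Fin N → ℝ) (k l : Fin N) : Prop :=
  (∀ i j, k < i → i ≤ j → j ≤ l →
    32 * (((l : ℕ) : ℝ) - ((k : ℕ) : ℝ)) * d j ^ 2 * (d j - d i) ^ 2 ≤ d k ^ 3 * (d i - d k)) ∨
  (∀ j, k < j → j ≤ l →
    d j ≤ (1 + 1 / (64000 * (1 + Real.log (((l : ℕ) : ℝ) - ((k : ℕ) : ℝ))) ^ 2)) * d k)

/-- The rates above `d k` split into near rates `d (k+1), ..., d l` and far rates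
`d_j ≥ max ((1 + c) d_k, 20000 N P m₀ / c²)`, `j > l`. -/
def Split {N : ℕ} (P m₀ c : ℝ) (d : Fin N → ℝ) (k : Fin N) : Prop :=
  ∃ l : Fin N, k ≤ l ∧ Near d k l ∧
    ∀ j, l < j → (1 + c) * d k ≤ d j ∧ 20000 * N * P * m₀ ≤ c ^ 2 * d j

/-- the constant of part (A) -/
noncomputable def CN (N : ℕ) : ℝ := 20000 * N * (64000 * (1 + Real.log N) ^ 2) ^ 2

/-- **Main theorem.** -/
theorem result {n : ℕ} (N : ℕ) (Ω : Set (Sp n)) (hΩ : Domain Ω) (m : Sp n → ℝ)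
    (hm : ContinuousOn m (closure Ω)) (hnc : ∃ x ∈ closure Ω, ∃ y ∈ closure Ω, m x ≠ m y) :
    (∃ P : ℝ, 0 < P ∧ Poinc Ω P) ∧
    ∀ P m₀ : ℝ, 0 < P → Poinc Ω P → (∀ x ∈ closure Ω, |m x| ≤ m₀) →
      (∀ (d : Fin N → ℝ), (∀ j, 0 < d j) → StrictMono d →
        (∀ j : Fin N, 2 ≤ (j : ℕ) → CN N * P * m₀ ≤ d j) →
        ∀ (θ : Fin N → Sp n → ℝ), (∀ j, IsSteady Ω (d j) m (θ j)) → IsMorse Ω d m (Eqm θ)) ∧
      (∀ c : ℝ, 0 < c → c ≤ 1 → ∀ (d : Fin N → ℝ), (∀ j, 0 < d j) → StrictMono d →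
        ∀ (θ : Fin N → Sp n → ℝ), (∀ j, IsSteady Ω (d j) m (θ j)) →
        (∀ k, Split P m₀ c d k → ∀ u, Forward Ω d m u →
          (∀ j, j < k → ∀ x ∈ closure Ω, u j 0 x = 0) →
          (∃ x ∈ closure Ω, u k 0 x ≠ 0) → LimIn Ω atTop u (Eqm θ k.castSucc)) ∧
        ((∀ k, Split P m₀ c d k) → IsMorse Ω d m (Eqm θ))) := by
  refine ⟨p_P Ω hΩ, ?_⟩
  intro P m₀ hP0 hP hmm
  have hD : Pool.Agent.Lib.MP_d8ef8f_an.Ff.Dom Ω P := ⟨hΩ.isOpen, hΩ.nonempty, hΩ.bdd, hP, hP0⟩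
  have key : ∀ c : ℝ, 0 < c → c ≤ 1 → ∀ (d : Fin N → ℝ), (∀ j, 0 < d j) → StrictMono d →
      ∀ (θ : Fin N → Sp n → ℝ), (∀ j, IsSteady Ω (d j) m (θ j)) →
      (∀ k, Split P m₀ c d k → ∀ u, Forward Ω d m u →
          (∀ j, j < k → ∀ x ∈ closure Ω, u j 0 x = 0) →
          (∃ x ∈ closure Ω, u k 0 x ≠ 0) → LimIn Ω atTop u (Eqm θ k.castSucc)) ∧
        ((∀ k, Split P m₀ c d k) → IsMorse Ω d m (Eqm θ)) := by
    intro c hc hc1 d hd hmono θ hθ
    have hA : ∀ k, Split P m₀ c d k → Attr Ω d m k (θ k) := by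
      rintro k ⟨l, hkl, h1 | h1, h2⟩
      · exact Pool.Agent.Lib.MP_d8ef8f_an.Uf.attr_of_near N hD hm hnc hmm hc hc1 d hd hmono k l hkl
          h2 (θ k) (Pool.Agent.Lib.MP_d8ef8f_an.Ff.near_df hD hm hnc hd hmono k l hkl h1 (hθ k))
      · refine Pool.Agent.Lib.MP_d8ef8f_an.Uf.attr_of_near N hD hm hnc hmm hc hc1 d hd hmono k l hkl
          h2 (θ k) (Pool.Agent.Lib.MP_d8ef8f_an.Ff.near_t0 hΩ hm hnc hd hmono k l hkl ?_ (hθ k))
        intro j hj hjl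
        have h3 := h1 j hj hjl
        unfold Pool.Agent.Lib.MP_d8ef8f_an.Ff.cn
        rw [Nat.cast_sub (Fin.le_def.1 hkl)]
        exact h3
    refine ⟨fun k hk u hu hlow hne => ?_, fun h => ?_⟩
    · exact conv_of_attr p_A2 (p_D0 p_A2 p_A3) (p_F1 p_A2) Ω hΩ.isOpen hΩ.bdd d m hm θ hθ k
        (hA k hk) u hu hlow hne
    · exact morse_of_attr p_A2 (p_D0 p_A2 p_A3) (p_F1 p_A2) p_F3 Ω hΩ.isOpen hΩ.nonempty hΩ.bdd
        d m hm θ hθ fun k => hA k (h k)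
  refine ⟨?_, key⟩
  intro d hd hmono hlarge θ hθ
  have hcN := Pool.Agent.Lib.MP_d8ef8f_an.Ff.cn_pos N
  have hcN1 : Pool.Agent.Lib.MP_d8ef8f_an.Ff.cn N ≤ 1 := by
    unfold Pool.Agent.Lib.MP_d8ef8f_an.Ff.cn
    have h : 0 ≤ Real.log (N : ℝ) := Real.log_natCast_nonneg N
    rw [div_le_one (by positivity)]
    nlinarith
  have hCN : ∀ j : Fin N, 2 ≤ (j : ℕ) → 20000 * N * P * m₀ ≤
      Pool.Agent.Lib.MP_d8ef8f_an.Ff.cn N ^ 2 * d j := by
    intro j hj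
    have h1 := mul_le_mul_of_nonneg_left (hlarge j hj) (by positivity :
      0 ≤ Pool.Agent.Lib.MP_d8ef8f_an.Ff.cn N ^ 2)
    refine le_trans (le_of_eq ?_) h1
    unfold CN Pool.Agent.Lib.MP_d8ef8f_an.Ff.cn
    have h : 0 ≤ Real.log (N : ℝ) := Real.log_natCast_nonneg N
    field_simp
  refine (key _ hcN hcN1 d hd hmono θ hθ).2 fun k => ?_
  obtain ⟨l, hkl, h1, h2⟩ := Pool.Agent.Lib.MP_d8ef8f_an.Ff.exists_split hd hmono hcN k
  have hnear : Near d k l := by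
    refine Or.inr ?_
    intro j _ hjl
    refine (h1 j hjl).trans ?_
    refine mul_le_mul_of_nonneg_right ?_ (hd k).le
    have h3 : (l : ℕ) - (k : ℕ) ≤ N := by
      have := l.isLt
      omega
    have h4 := Pool.Agent.Lib.MP_d8ef8f_an.Ff.cn_anti h3
    unfold Pool.Agent.Lib.MP_d8ef8f_an.Ff.cn at h4 ⊢
    rw [Nat.cast_sub (Fin.le_def.1 hkl)] at h4
    linarith
  by_cases hl : 1 ≤ (l : ℕ)
  · refine ⟨l, hkl, hnear, ?_⟩
    intro j hj
    refine ⟨(h2 j hj).le, hCN j ?_⟩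
    have := Fin.lt_def.1 hj
    omega
  · -- `k = l = 0`
    have hl0 : (l : ℕ) = 0 := by omega
    have hk0 : (k : ℕ) = 0 := by
      have := Fin.le_def.1 hkl
      omega
    by_cases hN2 : 2 ≤ N
    · refine ⟨⟨1, by omega⟩, ?_, Or.inl ?_, ?_⟩
      · rw [Fin.le_def]
        simp [hk0]
      · intro i j hi hij hjl
        have h3 : (i : ℕ) = (j : ℕ) := by
          have e1 := Fin.lt_def.1 hi
          have e2 := Fin.le_def.1 hij
          have e3 := Fin.le_def.1 hjl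
          simp only at e3
          omega
        have h4 : i = j := Fin.ext h3
        subst h4
        have h5 : d k < d i := hmono hi
        have h6 := hd k
        rw [sub_self]
        have h7 : 0 ≤ d k ^ 3 * (d i - d k) := by
          have : 0 ≤ d i - d k := by linarith
          positivity
        simpa using h7
      · intro j hj
        have e1 := Fin.lt_def.1 hj
        simp only at e1
        refine ⟨(h2 j ?_).le, hCN j (by omega)⟩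
        rw [Fin.lt_def]
        omega
    · refine ⟨l, hkl, hnear, ?_⟩
      intro j hj
      exfalso
      have e1 := Fin.lt_def.1 hj
      have e2 := j.isLt
      omega

end Pool.Agent.Results.MP_d8ef8f_an.ThirdRate
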