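import Pool.Agent.Lib.MP_d8ef8f_an.TwoPatch.Limits
import Pool.Agent.Lib.MP_d8ef8f_an.TwoPatch.Exist

/-!
# N dispersers in two patches: the Morse decomposition

The two-patch version of the competition system of Dockery, Hutson, Mischaikow and Pernarowski:
`N` species which differ only in their dispersal rates `d 0 < d 1 < ...` live in two patches of
sizes `1 / al` and `1 / be` with growth rates `a < b`.  For every `N` the equilibria
`E_1, ..., E_N, E_0` form a Morse decomposition of the maximal bounded invariant set of `K⁺`.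
-/

set_option autoImplicit false

open Set Filter Topology

namespace Pool.Agent.Results.MP_d8ef8f_an.TwoPatchMorse

/-- States: densities of the `N` species in the first and in the second patch. -/
abbrev State (N : ℕ) := Fin N → ℝ × ℝ

/-- The vector field of the two-patch competition system. -/
noncomputable def field {N : ℕ} (d : Fin N → ℝ) (al be a b : ℝ) (u : State N) : State N :=
  fun i =>
    (al * d i * ((u i).2 - (u i).1) + (u i).1 * (a - ∑ j, (u j).1),
      be * d i * ((u i).1 - (u i).2) + (u i).2 * (b - ∑ j, (u j).2))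

/-- The nonnegative cone `K⁺`. -/
def Kplus (N : ℕ) : Set (State N) := {u | ∀ i, 0 ≤ (u i).1 ∧ 0 ≤ (u i).2}

/-- `u` is a solution with values in `K⁺` on the time set `J`. -/
def IsSol {N : ℕ} (d : Fin N → ℝ) (al be a b : ℝ) (J : Set ℝ) (u : ℝ → State N) : Prop :=
  ∀ t ∈ J, u t ∈ Kplus N ∧ HasDerivWithinAt u (field d al be a b (u t)) J t

/-- The `ω`-limit set of a trajectory. -/
def omegaLim {N : ℕ} (u : ℝ → State N) : Set (State N) := {p | MapClusterPt p atTop u}

/-- The `α`-limit set of an entire trajectory. -/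
def alphaLim {N : ℕ} (u : ℝ → State N) : Set (State N) := {p | MapClusterPt p atBot u}

/-- The maximal bounded invariant set of `K⁺`: the union of the bounded entire trajectories. -/
def InvK {N : ℕ} (d : Fin N → ℝ) (al be a b : ℝ) : Set (State N) :=
  {p | ∃ γ : ℝ → State N, IsSol d al be a b univ γ ∧ Bornology.IsBounded (range γ) ∧ γ 0 = p}

/-- Morse decompositions of `InvK`, as in the problem. -/
structure IsMorseDecomposition {N : ℕ} (d : Fin N → ℝ) (al be a b : ℝ) {k : ℕ}
    (M : Fin k → Set (State N)) : Prop where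
  compact : ∀ i, IsCompact (M i)
  subset : ∀ i, M i ⊆ InvK d al be a b
  forward_invariant : ∀ i, ∀ u : ℝ → State N, IsSol d al be a b (Ici 0) u → u 0 ∈ M i →
    ∀ t, 0 ≤ t → u t ∈ M i
  backward_invariant : ∀ i, ∀ p ∈ M i, ∃ γ : ℝ → State N, IsSol d al be a b univ γ ∧ γ 0 = p ∧
    ∀ t, γ t ∈ M i
  disjoint : ∀ i j, i ≠ j → Disjoint (M i) (M j)
  attract : ∀ u : ℝ → State N, IsSol d al be a b (Ici 0) u →
    Bornology.IsBounded (u '' Ici 0) → ∃ i, omegaLim u ⊆ M i
  connect : ∀ γ : ℝ → State N, IsSol d al be a b univ γ → Bornology.IsBounded (range γ) →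
    ¬ (∀ t, γ t ∈ ⋃ i, M i) → ∃ i j, i < j ∧ omegaLim γ ⊆ M i ∧ alphaLim γ ⊆ M j

/-- `p` is a positive equilibrium of the two-patch model for one species with rate `d`. -/
def IsTheta (d al be a b : ℝ) (p : ℝ × ℝ) : Prop :=
  0 < p.1 ∧ 0 < p.2 ∧ al * d * (p.2 - p.1) + p.1 * (a - p.1) = 0 ∧
    be * d * (p.1 - p.2) + p.2 * (b - p.2) = 0

/-- The family `{E_1}, ..., {E_N}, {E_0}`. -/
noncomputable def morseSets {N : ℕ} (th : Fin N → ℝ × ℝ) : Fin (N + 1) → Set (State N) :=
  Fin.snoc (α := fun _ => Set (State N)) (fun i => {Pi.single i (th i)}) {0}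

open Pool.Agent.Lib.MP_d8ef8f_an.TwoPatch

variable {N : ℕ} {d : Fin N → ℝ} {al be a b : ℝ}

theorem flow_of_sol {u : ℝ → State N} {J : Set ℝ} (h : IsSol d al be a b J u) {t0 : ℝ}
    (hJ : Ici t0 ⊆ J) :
    Flow ⟨d, al, be, a, b⟩ t0 (fun i t => (u t i).1) (fun i t => (u t i).2) where
  x0 := fun i t ht => ((h t (hJ ht)).1 i).1
  y0 := fun i t ht => ((h t (hJ ht)).1 i).2
  xc := fun i t ht => by
    have h1 := ((h t (hJ ht)).2.mono hJ)
    have h2 := (hasDerivWithinAt_pi.mp h1) i
    exact (h2.continuousWithinAt).fst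
  yc := fun i t ht => by
    have h1 := ((h t (hJ ht)).2.mono hJ)
    have h2 := (hasDerivWithinAt_pi.mp h1) i
    exact (h2.continuousWithinAt).snd
  xd := fun i t ht => by
    have h1 := ((h t (hJ ht)).2.mono ((Ici_subset_Ici.mpr ht).trans hJ))
    have h2 := (hasDerivWithinAt_pi.mp h1) i
    exact ((ContinuousLinearMap.fst ℝ ℝ ℝ).hasFDerivAt.comp_hasDerivWithinAt t h2)
  yd := fun i t ht => by
    have h1 := ((h t (hJ ht)).2.mono ((Ici_subset_Ici.mpr ht).trans hJ))
    have h2 := (hasDerivWithinAt_pi.mp h1) i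
    exact ((ContinuousLinearMap.snd ℝ ℝ ℝ).hasFDerivAt.comp_hasDerivWithinAt t h2)

theorem mem_of_cluster {l : Filter ℝ} {u : ℝ → State N} {p q : State N}
    (h : Tendsto u l (𝓝 q)) (hp : MapClusterPt p l u) : p = q := by
  have h1 : ClusterPt p (𝓝 q) := ClusterPt.mono hp h
  have : (𝓝 p ⊓ 𝓝 q).NeBot := h1
  exact eq_of_nhds_neBot this

theorem omega_subset {u : ℝ → State N} {q : State N} (h : Tendsto u atTop (𝓝 q)) :
    omegaLim u ⊆ {q} := fun _ hp => mem_of_cluster h hp

theorem alpha_subset {u : ℝ → State N} {q : State N} (h : Tendsto u atBot (𝓝 q)) :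
    alphaLim u ⊆ {q} := fun _ hp => mem_of_cluster h hp

theorem tendsto_single {l : Filter ℝ} {u : ℝ → State N} {k : Fin N} {p : ℝ × ℝ}
    (hk : Tendsto (fun t => (u t k).1) l (𝓝 p.1) ∧ Tendsto (fun t => (u t k).2) l (𝓝 p.2))
    (hj : ∀ j, j ≠ k → Tendsto (fun t => (u t j).1) l (𝓝 0) ∧
      Tendsto (fun t => (u t j).2) l (𝓝 0)) :
    Tendsto u l (𝓝 (Pi.single k p)) := by
  rw [tendsto_pi_nhds]
  intro j
  by_cases hjk : j = k
  · subst hjk
    rw [Pi.single_eq_same]
    exact hk.1.prodMk_nhds hk.2
  · rw [Pi.single_eq_of_ne hjk]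
    exact (hj j hjk).1.prodMk_nhds (hj j hjk).2

theorem sm_pos_iff {P : Par N} (hP : P.Ok) {x y : Fin N → ℝ → ℝ} {i : Fin N} {t : ℝ}
    (hx : 0 ≤ x i t) (hy : 0 ≤ y i t) :
    sm P x y i t = 0 ↔ x i t = 0 ∧ y i t = 0 := by
  have h1 := div_nonneg hx hP.al.le
  have h2 := div_nonneg hy hP.be.le
  constructor
  · intro h
    unfold sm at h
    have h3 : x i t / P.al = 0 := by linarith
    have h4 : y i t / P.be = 0 := by linarith
    rw [div_eq_zero_iff] at h3 h4
    exact ⟨h3.resolve_right hP.al.ne', h4.resolve_right hP.be.ne'⟩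
  · rintro ⟨h3, h4⟩
    unfold sm
    rw [h3, h4]
    simp

/-- Forward limits of all trajectories. -/
theorem forward_limit (hd : ∀ i, 0 < d i) (hmono : StrictMono d) (hal : 0 < al) (hbe : 0 < be)
    (hab : a < b) (hm : 0 ≤ be * a + al * b) {th : Fin N → ℝ × ℝ}
    (hth : ∀ i, IsTheta (d i) al be a b (th i)) {u : ℝ → State N} {t0 : ℝ}
    (hu : Flow ⟨d, al, be, a, b⟩ t0 (fun i t => (u t i).1) (fun i t => (u t i).2)) {k : Fin N}
    (hk : u t0 k ≠ 0) (hmin : ∀ j, j < k → u t0 j = 0) :
    Tendsto u atTop (𝓝 (Pi.single k (th k))) := by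
  have hP : (⟨d, al, be, a, b⟩ : Par N).Ok := ⟨hal, hbe, hab, hd, hmono, hm⟩
  have hE : (⟨d, al, be, a, b⟩ : Par N).IsEq th :=
    ⟨fun i => (hth i).1, fun i => (hth i).2.1, fun i => (hth i).2.2.1, fun i => (hth i).2.2.2⟩
  have h1 := hu.forward hP hE k ?_ ?_
  · exact tendsto_single h1.1 h1.2
  · refine lt_of_le_of_ne (hu.sm0 hP (le_refl _) k) (Ne.symm ?_)
    intro h0
    rw [sm_pos_iff hP (hu.x0 k t0 (le_refl _)) (hu.y0 k t0 (le_refl _))] at h0
    exact hk (Prod.ext h0.1 h0.2)
  · intro j hj
    rw [sm_pos_iff hP (hu.x0 j t0 (le_refl _)) (hu.y0 j t0 (le_refl _))]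
    rw [hmin j hj]
    simp

theorem exists_min_present {v : State N} (h : ∃ i, v i ≠ 0) :
    ∃ k, v k ≠ 0 ∧ ∀ j, j < k → v j = 0 := by
  classical
  have hne : (Finset.univ.filter fun i => v i ≠ 0).Nonempty := by
    obtain ⟨i, hi⟩ := h
    exact ⟨i, by simpa using hi⟩
  refine ⟨(Finset.univ.filter fun i => v i ≠ 0).min' hne, ?_, ?_⟩
  · have := Finset.min'_mem _ hne
    simpa using this
  · intro j hj
    by_contra hcon
    have := Finset.min'_le _ j (show j ∈ Finset.univ.filter fun i => v i ≠ 0 by simpa using hcon)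
    exact absurd hj (not_lt.mpr this)

theorem exists_max_present {v : State N} (h : ∃ i, v i ≠ 0) :
    ∃ k, v k ≠ 0 ∧ ∀ j, k < j → v j = 0 := by
  classical
  have hne : (Finset.univ.filter fun i => v i ≠ 0).Nonempty := by
    obtain ⟨i, hi⟩ := h
    exact ⟨i, by simpa using hi⟩
  refine ⟨(Finset.univ.filter fun i => v i ≠ 0).max' hne, ?_, ?_⟩
  · have := Finset.max'_mem _ hne
    simpa using this
  · intro j hj
    by_contra hcon
    have := Finset.le_max' _ j (show j ∈ Finset.univ.filter fun i => v i ≠ 0 by simpa using hcon)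
    exact absurd hj (not_lt.mpr this)

theorem bounds_of_isBounded {γ : ℝ → State N} (h : Bornology.IsBounded (range γ)) :
    ∃ K : ℝ, 0 ≤ K ∧ (∀ t, tX (fun i t => (γ t i).1) t ≤ K) ∧
      ∀ t, tX (fun i t => (γ t i).2) t ≤ K := by
  obtain ⟨R, hR⟩ := h.exists_norm_le
  have hR0 : 0 ≤ R := (norm_nonneg _).trans (hR (γ 0) (mem_range_self 0))
  have h1 : ∀ t i, (γ t i).1 ≤ R ∧ (γ t i).2 ≤ R := by
    intro t i
    have h2 : ‖γ t i‖ ≤ R := (norm_le_pi_norm (γ t) i).trans (hR _ (mem_range_self t))
    have h3 := (norm_fst_le (γ t i)).trans h2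
    have h4 := (norm_snd_le (γ t i)).trans h2
    exact ⟨(le_abs_self _).trans h3, (le_abs_self _).trans h4⟩
  refine ⟨N * R, by positivity, fun t => ?_, fun t => ?_⟩
  · unfold tX
    calc ∑ j, (γ t j).1 ≤ ∑ _j : Fin N, R := Finset.sum_le_sum fun i _ => (h1 t i).1
      _ = N * R := by simp
  · unfold tX
    calc ∑ j, (γ t j).2 ≤ ∑ _j : Fin N, R := Finset.sum_le_sum fun i _ => (h1 t i).2
      _ = N * R := by simp

theorem const_sol {i : Fin N} {p : ℝ × ℝ} (hp : IsTheta (d i) al be a b p) (J : Set ℝ) :
    IsSol d al be a b J (fun _ => Pi.single i p) := by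
  intro t _
  refine ⟨?_, ?_⟩
  · intro j
    change 0 ≤ ((Pi.single i p : State N) j).1 ∧ 0 ≤ ((Pi.single i p : State N) j).2
    by_cases hj : j = i
    · subst hj
      rw [Pi.single_eq_same]
      exact ⟨hp.1.le, hp.2.1.le⟩
    · rw [Pi.single_eq_of_ne hj]
      simp
  · have hz : field d al be a b (Pi.single i p) = 0 := by
      have e1 : ∑ j, ((Pi.single i p : State N) j).1 = p.1 := by
        rw [Finset.sum_eq_single i]
        · rw [Pi.single_eq_same]
        · intro j _ hj
          rw [Pi.single_eq_of_ne hj]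
          rfl
        · intro h
          exact absurd (Finset.mem_univ i) h
      have e2 : ∑ j, ((Pi.single i p : State N) j).2 = p.2 := by
        rw [Finset.sum_eq_single i]
        · rw [Pi.single_eq_same]
        · intro j _ hj
          rw [Pi.single_eq_of_ne hj]
          rfl
        · intro h
          exact absurd (Finset.mem_univ i) h
      funext j
      unfold field
      rw [e1, e2]
      by_cases hj : j = i
      · subst hj
        rw [Pi.single_eq_same]
        exact Prod.ext hp.2.2.1 hp.2.2.2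
      · rw [Pi.single_eq_of_ne hj]
        simp
    rw [hz]
    exact hasDerivWithinAt_const _ _ _

theorem zero_sol (J : Set ℝ) : IsSol d al be a b J (fun _ => 0) := by
  intro t _
  refine ⟨fun j => by simp, ?_⟩
  have hz : field d al be a b (0 : State N) = 0 := by
    funext j
    unfold field
    simp
  rw [hz]
  exact hasDerivWithinAt_const _ _ _

/-- **Theorem.**  Two patches, any number of species. -/
theorem result {N : ℕ} (d : Fin N → ℝ) (al be a b : ℝ) (hd : ∀ i, 0 < d i)
    (hmono : StrictMono d) (hal : 0 < al) (hbe : 0 < be) (hab : a < b)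
    (hm : 0 ≤ be * a + al * b) :
    ∃ th : Fin N → ℝ × ℝ,
      (∀ i, IsTheta (d i) al be a b (th i) ∧ ∀ p, IsTheta (d i) al be a b p → p = th i) ∧
      IsMorseDecomposition d al be a b (morseSets th) ∧
      (∀ u : ℝ → State N, IsSol d al be a b (Ici 0) u → ∀ k, u 0 k ≠ 0 →
        (∀ j, j < k → u 0 j = 0) → Tendsto u atTop (𝓝 (Pi.single k (th k)))) := by
  have hex := fun i => exists_eq (d := d i) hal hbe hab (hd i) hm
  choose th hth using hex
  have hP : (⟨d, al, be, a, b⟩ : Par N).Ok := ⟨hal, hbe, hab, hd, hmono, hm⟩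
  have hE : (⟨d, al, be, a, b⟩ : Par N).IsEq th :=
    ⟨fun i => (hth i).1, fun i => (hth i).2.1, fun i => (hth i).2.2.1, fun i => (hth i).2.2.2⟩
  have hfw : ∀ u : ℝ → State N, IsSol d al be a b (Ici 0) u → ∀ k, u 0 k ≠ 0 →
        (∀ j, j < k → u 0 j = 0) → Tendsto u atTop (𝓝 (Pi.single k (th k))) := fun u hu k hk hmin =>
    forward_limit hd hmono hal hbe hab hm hth (flow_of_sol hu (le_refl _)) hk hmin
  have hzero : ∀ u : ℝ → State N, IsSol d al be a b (Ici 0) u → u 0 = 0 →
      ∀ t, 0 ≤ t → u t = 0 := by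
    intro u hu h0 t ht
    have hf := flow_of_sol hu (le_refl _)
    funext i
    have h1 := hf.sm_zero hP (i := i) (by
      rw [sm_pos_iff hP (hf.x0 i 0 (le_refl _)) (hf.y0 i 0 (le_refl _)), h0]
      simp) ht
    exact Prod.ext h1.1 h1.2
  refine ⟨th, fun i => ⟨hth i, fun p hp => ?_⟩, ?_, hfw⟩
  · have h1 := hfw (fun _ => Pi.single i p) (const_sol hp _) i
      (by
        rw [Pi.single_eq_same]
        intro h
        have := hp.1
        rw [h] at this
        simp at this)
      (fun j hj => by rw [Pi.single_eq_of_ne hj.ne])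
    have h2 : (Pi.single i p : State N) = Pi.single i (th i) :=
      tendsto_nhds_unique tendsto_const_nhds h1
    have h3 := congrFun h2 i
    rwa [Pi.single_eq_same, Pi.single_eq_same] at h3
  have hstay : ∀ u : ℝ → State N, IsSol d al be a b (Ici 0) u → ∀ i, u 0 = Pi.single i (th i) →
      ∀ t, 0 ≤ t → u t = Pi.single i (th i) := by
    intro u hu i h0 t ht
    have hf := flow_of_sol hu (le_refl _)
    have hoth : ∀ j, j ≠ i → ∀ s, 0 ≤ s → (u s j).1 = 0 ∧ (u s j).2 = 0 := by
      intro j hj s hs
      exact hf.sm_zero hP (i := j) (by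
        rw [sm_pos_iff hP (hf.x0 j 0 (le_refl _)) (hf.y0 j 0 (le_refl _)), h0,
          Pi.single_eq_of_ne hj]
        simp) hs
    have hmain := hf.stay_eq hP hE i (fun j hj s hs => (hoth j hj s hs).1)
      (fun j hj s hs => (hoth j hj s hs).2)
      (by rw [h0, Pi.single_eq_same]) (by rw [h0, Pi.single_eq_same]) t ht
    funext j
    by_cases hj : j = i
    · subst hj
      rw [Pi.single_eq_same]
      exact Prod.ext hmain.1 hmain.2
    · rw [Pi.single_eq_of_ne hj]
      exact Prod.ext (hoth j hj t ht).1 (hoth j hj t ht).2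
  have hne : ∀ i : Fin N, th i ≠ 0 := by
    intro i h
    have := (hth i).1
    rw [h] at this
    simp at this
  have hM1 : ∀ i : Fin N, morseSets th i.castSucc = {Pi.single i (th i)} := by
    intro i
    simp [morseSets, Fin.snoc_castSucc]
  have hM0 : morseSets th (Fin.last N) = {0} := by
    simp [morseSets, Fin.snoc_last]
  constructor
  · -- compact
    intro i
    induction i using Fin.lastCases with
    | last => rw [hM0]; exact isCompact_singleton
    | cast i => rw [hM1]; exact isCompact_singleton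
  · -- subset
    intro i
    induction i using Fin.lastCases with
    | last =>
      rw [hM0]
      rintro p rfl
      exact ⟨fun _ => 0, zero_sol _, by simp, rfl⟩
    | cast i =>
      rw [hM1]
      rintro p rfl
      exact ⟨fun _ => Pi.single i (th i), const_sol (hth i) _, by simp, rfl⟩
  · -- forward invariance
    intro i
    induction i using Fin.lastCases with
    | last =>
      rw [hM0]
      intro u hu h0 t ht
      exact hzero u hu h0 t ht
    | cast i =>
      rw [hM1]
      intro u hu h0 t ht
      exact hstay u hu i h0 t ht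
  · -- backward invariance
    intro i
    induction i using Fin.lastCases with
    | last =>
      rw [hM0]
      rintro p rfl
      exact ⟨fun _ => 0, zero_sol _, rfl, fun _ => rfl⟩
    | cast i =>
      rw [hM1]
      rintro p rfl
      exact ⟨fun _ => Pi.single i (th i), const_sol (hth i) _, rfl, fun _ => rfl⟩
  · -- disjoint
    intro i j
    induction i using Fin.lastCases with
    | last =>
      induction j using Fin.lastCases with
      | last => intro h; exact absurd rfl h
      | cast j =>
        intro _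
        rw [hM0, hM1, Set.disjoint_singleton]
        intro h
        have := congrFun h j
        rw [Pi.single_eq_same] at this
        exact hne j this.symm
    | cast i =>
      induction j using Fin.lastCases with
      | last =>
        intro _
        rw [hM0, hM1, Set.disjoint_singleton]
        intro h
        have := congrFun h i
        rw [Pi.single_eq_same] at this
        exact hne i this
      | cast j =>
        intro hij
        rw [hM1, hM1, Set.disjoint_singleton]
        intro h
        have hij' : i ≠ j := fun h => hij (by rw [h])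
        have := congrFun h i
        rw [Pi.single_eq_same, Pi.single_eq_of_ne hij'] at this
        exact hne i this
  · -- attraction
    intro u hu _
    by_cases h0 : u 0 = 0
    · refine ⟨Fin.last N, ?_⟩
      rw [hM0]
      apply omega_subset
      refine tendsto_const_nhds.congr' ?_
      filter_upwards [eventually_ge_atTop (0:ℝ)] with t ht using (hzero u hu h0 t ht).symm
    · have hne' : ∃ i, u 0 i ≠ 0 := by
        by_contra hcon
        push Not at hcon
        exact h0 (funext hcon)
      classical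
      obtain ⟨k, hk, hmin⟩ := exists_min_present hne'
      refine ⟨k.castSucc, ?_⟩
      rw [hM1]
      exact omega_subset (hfw u hu k hk hmin)
  · -- connections
    intro γ hγ hbd hnot
    have hf : ∀ t0, Flow ⟨d, al, be, a, b⟩ t0 (fun i t => (γ t i).1) (fun i t => (γ t i).2) :=
      fun t0 => flow_of_sol hγ (subset_univ _)
    have hent : Entire ⟨d, al, be, a, b⟩ (fun i t => (γ t i).1) (fun i t => (γ t i).2) := hf
    obtain ⟨K, hK, hX, hY⟩ := bounds_of_isBounded hbd
    -- some species is present at time 0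
    have hpres : ∀ i t, γ t i ≠ 0 → γ 0 i ≠ 0 := by
      intro i t h h'
      have h1 : 0 < sm (⟨d, al, be, a, b⟩ : Par N) (fun i t => (γ t i).1)
          (fun i t => (γ t i).2) i t := by
        refine lt_of_le_of_ne ((hf t).sm0 hP (le_refl _) i) (Ne.symm ?_)
        intro h0
        rw [sm_pos_iff hP ((hf t).x0 i t (le_refl _)) ((hf t).y0 i t (le_refl _))] at h0
        exact h (Prod.ext h0.1 h0.2)
      have h2 := hent.present hP hX hY h1 0
      have h3 : sm (⟨d, al, be, a, b⟩ : Par N) (fun i t => (γ t i).1)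
          (fun i t => (γ t i).2) i 0 = 0 := by
        rw [sm_pos_iff hP ((hf 0).x0 i 0 (le_refl _)) ((hf 0).y0 i 0 (le_refl _)), h']
        simp
      exact absurd h3 h2.ne'
    have hne' : ∃ i, γ 0 i ≠ 0 := by
      by_contra hcon
      push Not at hcon
      apply hnot
      intro t
      refine Set.mem_iUnion.mpr ⟨Fin.last N, ?_⟩
      rw [hM0]
      change γ t = 0
      funext i
      by_contra h
      exact hpres i t h (hcon i)
    obtain ⟨k, hk, hmin⟩ := exists_min_present hne'
    obtain ⟨K', hk', hmax⟩ := exists_max_present hne'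
    have hom : Tendsto γ atTop (𝓝 (Pi.single k (th k))) :=
      forward_limit hd hmono hal hbe hab hm hth (hf 0) hk hmin
    rcases hent.dichotomy hP hE with ⟨e0, he0, hEw⟩ | hto0
    · have hsmk' : 0 < sm (⟨d, al, be, a, b⟩ : Par N) (fun i t => (γ t i).1)
          (fun i t => (γ t i).2) K' 0 := by
        refine lt_of_le_of_ne ((hf 0).sm0 hP (le_refl _) K') (Ne.symm ?_)
        intro h0
        rw [sm_pos_iff hP ((hf 0).x0 K' 0 (le_refl _)) ((hf 0).y0 K' 0 (le_refl _))] at h0
        exact hk' (Prod.ext h0.1 h0.2)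
      have hback := hent.backward hP hE hK hX hY he0 hEw K' hsmk' (fun j hj => by
        rw [sm_pos_iff hP ((hf 0).x0 j 0 (le_refl _)) ((hf 0).y0 j 0 (le_refl _)), hmax j hj]
        simp)
      have hal' : Tendsto γ atBot (𝓝 (Pi.single K' (th K'))) :=
        tendsto_single hback.1.1 hback.1.2
      have hkK : k ≤ K' := by
        by_contra hcon
        push Not at hcon
        exact hk' (hmin K' hcon)
      rcases hkK.eq_or_lt with heq | hlt
      · exfalso
        apply hnot
        have hsing := hback.2 (fun j hj => by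
          rw [sm_pos_iff hP ((hf 0).x0 j 0 (le_refl _)) ((hf 0).y0 j 0 (le_refl _))]
          have : γ 0 j = 0 := by
            rcases lt_or_gt_of_ne hj with h | h
            · exact hmin j (heq ▸ h)
            · exact hmax j h
          rw [this]
          simp)
        intro t
        refine Set.mem_iUnion.mpr ⟨K'.castSucc, ?_⟩
        rw [hM1]
        change γ t = Pi.single K' (th K')
        funext j
        by_cases hj : j = K'
        · subst hj
          rw [Pi.single_eq_same]
          exact Prod.ext (hsing t).1 (hsing t).2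
        · rw [Pi.single_eq_of_ne hj]
          by_contra h
          have h1 := hpres j t h
          rcases lt_or_gt_of_ne hj with h2 | h2
          · exact h1 (hmin j (heq ▸ h2))
          · exact h1 (hmax j h2)
      · refine ⟨k.castSucc, K'.castSucc, ?_, ?_, ?_⟩
        · exact Fin.castSucc_lt_castSucc_iff.mpr hlt
        · rw [hM1]
          exact omega_subset hom
        · rw [hM1]
          exact alpha_subset hal'
    · refine ⟨k.castSucc, Fin.last N, Fin.castSucc_lt_last k, ?_, ?_⟩
      · rw [hM1]
        exact omega_subset hom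
      · rw [hM0]
        apply alpha_subset
        rw [tendsto_pi_nhds]
        intro j
        exact (hto0 j).1.prodMk_nhds (hto0 j).2

end Pool.Agent.Results.MP_d8ef8f_an.TwoPatchMorse
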